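import Pool.Agent.CYE.StmtsG

/-!
# Squad CYE, row NU2: numerics

Author: helper40.
-/

namespace Pool.Agent.CYE.H40

theorem cub2 {t : ℕ} (ht : 10 ≤ t) : t ^ 3 ≤ 2 ^ t := by
  induction t, ht using Nat.le_induction with
  | base => norm_num
  | succ t ht ih =>
    have h1 : 10 * t ^ 2 ≤ t ^ 3 := by
      rw [pow_succ t 2, mul_comm (t ^ 2) t]
      exact Nat.mul_le_mul_right _ ht
    have h2 : 10 * t ≤ t ^ 2 := by
      rw [pow_two]
      exact Nat.mul_le_mul_right _ ht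
    have h3 : (t + 1) ^ 3 = t ^ 3 + 3 * t ^ 2 + 3 * t + 1 := by ring
    have h4 : 2 ^ (t + 1) = 2 * 2 ^ t := by ring
    rw [h3, h4]
    omega

theorem nu2 : Nu2Stmt := by
  intro p m n k J hk hn hlow hup hJ
  obtain ⟨K, hK⟩ : ∃ K, K = 2 ^ k := ⟨_, rfl⟩
  obtain ⟨l, hl⟩ : ∃ l, l = Nat.log 2 p := ⟨_, rfl⟩
  rw [← hK, ← hl] at hJ
  rw [← hK] at hlow ⊢
  have hkK : k ≤ K := by
    rw [hK]
    exact Nat.lt_two_pow_self.le
  have hK4 : 4 ≤ K := by
    rw [hK]
    calc 4 = 2 ^ 2 := by norm_num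
      _ ≤ 2 ^ k := Nat.pow_le_pow_right (by norm_num) hk
  have hp0 : p ≠ 0 := by
    rintro rfl
    exact absurd hlow (by positivity : 0 < 2 ^ (30 * k * K)).not_ge
  have h2l : 2 ^ l ≤ p := by
    rw [hl]
    exact Nat.pow_log_le_self 2 hp0
  have hlt : p < 2 ^ (l + 1) := by
    rw [hl]
    exact Nat.lt_pow_succ_log_self (by norm_num) p
  have hk0 : k ≠ 0 := by omega
  have h30 : 30 * (k * K) ≤ l := by
    have h1 : 2 ^ (30 * k * K) < 2 ^ (l + 1) := hlow.trans_lt hlt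
    have h2 : 30 * k * K < l + 1 := (Nat.pow_lt_pow_iff_right (by norm_num)).1 h1
    have h6 : 30 * (k * K) = 30 * k * K := by ring
    omega
  have hkK8 : 8 ≤ k * K := by
    calc 8 = 2 * 4 := by norm_num
      _ ≤ k * K := Nat.mul_le_mul hk hK4
  obtain ⟨t, ht⟩ : ∃ t, t = l / (3 * k) := ⟨_, rfl⟩
  have ht1 : 3 * (t * k) ≤ l := by
    have h1 := Nat.mul_div_le l (3 * k)
    rw [← ht] at h1
    calc 3 * (t * k) = 3 * k * t := by ring
      _ ≤ l := h1
  have ht2 : l < 3 * k * (t + 1) := by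
    have h1 := Nat.lt_mul_div_succ l (show 0 < 3 * k by omega)
    rw [← ht] at h1
    exact h1
  have ht3 : 10 * K ≤ t := by
    rw [ht, Nat.le_div_iff_mul_le (by omega)]
    calc 10 * K * (3 * k) = 30 * (k * K) := by ring
      _ ≤ l := h30
  have hbase : 2 * k * l ≤ 2 ^ t := by
    have h1 : 10 * k ≤ t := by omega
    calc 2 * k * l ≤ 2 * k * (3 * k * (t + 1)) := Nat.mul_le_mul_left _ ht2.le
      _ = 6 * (t + 1) * k ^ 2 := by ring
      _ ≤ 100 * t * k ^ 2 := Nat.mul_le_mul_right _ (by omega)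
      _ = t * (10 * k) ^ 2 := by ring
      _ ≤ t * t ^ 2 := Nat.mul_le_mul_left _ (Nat.pow_le_pow_left h1 2)
      _ = t ^ 3 := by ring
      _ ≤ 2 ^ t := cub2 (by omega)
  have hJ2 : J ≤ 2 * k * l := by
    have h1 : 1 + 5 * K ≤ l := by
      have h2 : K ≤ k * K := Nat.le_mul_of_pos_left K (by omega)
      omega
    have h2 : k * (1 + 5 * K) ≤ k * l := Nat.mul_le_mul_left _ h1
    calc J = k * l + k * (1 + 5 * K) := by rw [hJ]; ring
      _ ≤ k * l + k * l := Nat.add_le_add_left h2 _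
      _ = 2 * k * l := by ring
  have hJt : J ≤ 2 ^ t := hJ2.trans hbase
  have hJk : (l + 1) * k ≤ J := by
    rw [hJ, mul_comm (l + 1) k]
    exact Nat.le_add_right _ _
  have hJ1 : 1 ≤ J := by
    refine le_trans ?_ hJk
    exact Nat.mul_pos (by omega) (by omega)
  have e10 : 10 * k * K = 10 * (k * K) := by ring
  have e20 : 20 * k * K = 20 * (k * K) := by ring
  refine ⟨?_, hJ1, ?_, ?_, ?_⟩
  · refine le_trans (Nat.pow_le_pow_right (by norm_num) ?_) h2l
    omega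
  · calc 128 * J ^ k * 2 ^ (10 * k * K) ≤ 2 ^ 7 * (2 ^ t) ^ k * 2 ^ (10 * k * K) := by
          refine Nat.mul_le_mul_right _ (Nat.mul_le_mul (by norm_num) ?_)
          exact Nat.pow_le_pow_left hJt k
      _ = 2 ^ (7 + t * k + 10 * k * K) := by rw [← pow_mul, ← pow_add, ← pow_add]
      _ ≤ 2 ^ l := Nat.pow_le_pow_right (by norm_num) (by omega)
      _ ≤ p := h2l
  · intro d c φ hφ hd hc hpow
    obtain ⟨X, hX⟩ : ∃ X, X = J ^ k * 2 ^ (10 * k * K) := ⟨_, rfl⟩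
    have hX1 : 1 ≤ X := by
      rw [hX]
      exact Nat.mul_pos (Nat.pow_pos hJ1) (by positivity)
    have h1 : 64 * (J * X) ≤ p := by
      have ht4 : 2 * t ≤ t * k := by
        rw [mul_comm t k]
        exact Nat.mul_le_mul_right t hk
      calc 64 * (J * X) = 64 * J ^ (k + 1) * 2 ^ (10 * k * K) := by rw [hX]; ring
        _ ≤ 2 ^ 6 * (2 ^ t) ^ (k + 1) * 2 ^ (10 * k * K) := by
            refine Nat.mul_le_mul_right _ (Nat.mul_le_mul (by norm_num) ?_)
            exact Nat.pow_le_pow_left hJt (k + 1)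
        _ = 2 ^ (6 + t * (k + 1) + 10 * k * K) := by rw [← pow_mul, ← pow_add, ← pow_add]
        _ ≤ 2 ^ l := Nat.pow_le_pow_right (by norm_num) (by
            have e : t * (k + 1) = t * k + t := by ring
            rw [e]
            omega)
        _ ≤ p := h2l
    have h2 : (p - 1) * φ ≤ (l + 1) * k * (6 * d) := by
      rw [← Nat.pow_le_pow_iff_right (a := 2) (by norm_num)]
      calc 2 ^ ((p - 1) * φ) ≤ n ^ (6 * d) := hpow
        _ ≤ (p ^ k) ^ (6 * d) := Nat.pow_le_pow_left hup _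
        _ ≤ ((2 ^ (l + 1)) ^ k) ^ (6 * d) :=
            Nat.pow_le_pow_left (Nat.pow_le_pow_left hlt.le _) _
        _ = 2 ^ ((l + 1) * k * (6 * d)) := by rw [← pow_mul, ← pow_mul, mul_assoc]
    have h3 : d ≤ 6 * X * φ := by
      have e : 4 * J ^ k * 2 ^ (10 * k * K) = 4 * X := by rw [hX]; ring
      rw [e] at hc
      calc d ≤ p * c + 2 * φ := hd
        _ ≤ 4 * X * φ + 2 * φ := Nat.add_le_add_right hc _
        _ = (4 * X + 2) * φ := by ring
        _ ≤ 6 * X * φ := Nat.mul_le_mul_right _ (by omega)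
    have h4 : (p - 1) * φ ≤ 36 * (J * X) * φ := by
      calc (p - 1) * φ ≤ (l + 1) * k * (6 * d) := h2
        _ ≤ J * (6 * (6 * X * φ)) := Nat.mul_le_mul hJk (Nat.mul_le_mul_left _ h3)
        _ = 36 * (J * X) * φ := by ring
    have h5 : p - 1 ≤ 36 * (J * X) := Nat.le_of_mul_le_mul_right h4 hφ
    have h6 : 1 ≤ J * X := Nat.mul_pos hJ1 hX1
    omega
  · intro M hM
    obtain ⟨j, rfl⟩ : ∃ j, k = j + 1 := ⟨k - 1, by omega⟩
    rw [Nat.add_sub_cancel] at hM
    have hp : 0 < p := Nat.pos_of_ne_zero hp0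
    have hm : m ≤ 2 ^ ((l + 1) * j) := by
      have h1 : p * m ≤ p * p ^ j := by
        rw [← hn, ← pow_succ']
        exact hup
      calc m ≤ p ^ j := Nat.le_of_mul_le_mul_left h1 hp
        _ ≤ (2 ^ (l + 1)) ^ j := Nat.pow_le_pow_left hlt.le j
        _ = 2 ^ ((l + 1) * j) := (pow_mul 2 (l + 1) j).symm
    calc 2 * M ≤ 2 * (3 * m * 2 ^ j * (2 ^ (5 * K)) ^ j) := Nat.mul_le_mul_left _ hM
      _ = 6 * (m * 2 ^ j * (2 ^ (5 * K)) ^ j) := by ring
      _ ≤ 2 ^ 3 * (2 ^ ((l + 1) * j) * 2 ^ j * (2 ^ (5 * K)) ^ j) := by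
          refine Nat.mul_le_mul (by norm_num) ?_
          exact Nat.mul_le_mul_right _ (Nat.mul_le_mul_right _ hm)
      _ = 2 ^ (3 + ((l + 1) * j + j + 5 * K * j)) := by
          rw [← pow_mul, ← pow_add, ← pow_add, ← pow_add]
      _ < 2 ^ J := by
          refine Nat.pow_lt_pow_right (by norm_num) ?_
          have e1 : J = (l + 1) * j + 5 * K * j + (l + 1) + 5 * K := by rw [hJ]; ring
          have h7 : j + 1 ≤ K := hkK
          rw [e1]
          omega

end Pool.Agent.CYE.H40
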